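import Pool.Agent.J4.H32.VS.U33
import Pool.Agent.J4.H44.WI.U6
import Pool.Agent.J4.H44.LP.Ak

set_option autoImplicit false

/-!
# Shifted moments of zeta, the variance of the divisor functions `d_k` in the intervals `(x, x + hx]`, and the
correlations of `d_k`
-/

namespace Pool.Agent.Results.MP_069854_nt.ClassicalShortIntervals

open Complex MeasureTheory Filter Topology Set Pool.Agent.TH535.SM Pool.Agent.R446.KR Pool.Agent.J4.H44.LP
  Pool.Agent.J4.H32.VS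
open Pool.Agent.W182.KO (TF)
open scoped ComplexConjugate Matrix ContDiff

/-- The normalised shifted moment `Q_k(α,T)` of the problem. -/
noncomputable def Q (k : ℕ) (α : ℝ) (T : ℝ) : ℂ :=
  (T : ℂ)⁻¹ * ((Real.log T : ℂ) ^ (k ^ 2))⁻¹ *
    ∫ t in (0:ℝ)..T, riemannZeta (1 / 2 + I * α / Real.log T + I * t) ^ k *
      riemannZeta (1 / 2 + I * α / Real.log T - I * t) ^ k

/-- The normalised Haar measure `dU` of `U(N)`. -/
noncomputable def haar (N : ℕ) : Measure (Matrix.unitaryGroup (Fin N) ℂ) := Measure.haarMeasure ⊤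

/-- The matrix integral `W_k(α,N)` of the problem. -/
noncomputable def W (k : ℕ) (α : ℝ) (N : ℕ) : ℂ :=
  ((N : ℂ) ^ (k ^ 2))⁻¹ * ∫ U : Matrix.unitaryGroup (Fin N) ℂ,
    (1 - cexp (-(I * α / N)) • (U : Matrix (Fin N) (Fin N) ℂ)).det ^ k *
      (1 - cexp (-(I * α / N)) • (U : Matrix (Fin N) (Fin N) ℂ)ᴴ).det ^ k ∂(haar N)

/-- The number `d_k(n)` of ordered factorisations of `n` into `k` positive factors. -/
def dk (k n : ℕ) : ℕ := (Nat.finMulAntidiag k n).card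

/-- The arithmetic constant `a_k`. -/
noncomputable def ak (k : ℕ) : ℝ := ∏' p : Nat.Primes, (1 - 1 / (p : ℝ)) ^ (k ^ 2) *
  ∑' m : ℕ, (dk k ((p : ℕ) ^ m) : ℝ) ^ 2 / (p : ℝ) ^ m

/-- The residue of `ζ(s)^k x^s / s` at `s = 1`. -/
noncomputable def R (k : ℕ) (x : ℝ) : ℂ :=
  (2 * Real.pi * I)⁻¹ * ∮ s in C(1, 1 / 4), riemannZeta s ^ k * ((x : ℂ) ^ s / s)

/-- The error term `Δ_k(x)` of the divisor problem: the sum of `d_k(n)` over `1 ≤ n ≤ x`, minus the residue. -/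
noncomputable def Δ (k : ℕ) (x : ℝ) : ℂ := (∑ n ∈ Finset.Icc 1 ⌊x⌋₊, (dk k n : ℂ)) - R k x

/-- The variance `(h (log 1/h)^{k²})⁻¹ ∫_0^∞ f(log x / log(1/h)) |Δ_k(x + hx) - Δ_k(x)|² dx / x²`. -/
noncomputable def Var (k : ℕ) (f : ℝ → ℝ) (h : ℝ) : ℝ :=
  (h * Real.log (1 / h) ^ (k ^ 2))⁻¹ *
    ∫ x in Ioi (0:ℝ), f (Real.log x / Real.log (1 / h)) * (‖Δ k (x + h * x) - Δ k x‖ ^ 2 / x ^ 2)

/-- The sum of `d_k(m) d_k(n)` over `x < m < n ≤ x + hx`. -/
noncomputable def pairs (k : ℕ) (h x : ℝ) : ℝ :=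
  ∑ m ∈ Finset.Ioc ⌊x⌋₊ ⌊x + h * x⌋₊, ∑ n ∈ Finset.Ioc m ⌊x + h * x⌋₊, (dk k m : ℝ) * dk k n

/-- The mean `(h (log 1/h)^{k²})⁻¹ ∫_0^∞ f(log x / log(1/h)) (2 ∑_{x < m < n ≤ x + hx} d_k(m) d_k(n) -
|R(x + hx) - R(x)|²) dx / x²` of the correlations of `d_k`. -/
noncomputable def Corr (k : ℕ) (f : ℝ → ℝ) (h : ℝ) : ℝ :=
  (h * Real.log (1 / h) ^ (k ^ 2))⁻¹ * ∫ x in Ioi (0:ℝ), f (Real.log x / Real.log (1 / h)) *
    ((2 * pairs k h x - ‖R k (x + h * x) - R k x‖ ^ 2) / x ^ 2)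

/-- The polynomial `det(1 - X U)^k` in the variable `X`. -/
noncomputable def P (k : ℕ) {N : ℕ} (U : Matrix (Fin N) (Fin N) ℂ) : Polynomial ℂ :=
  ((1 : Matrix (Fin N) (Fin N) (Polynomial ℂ)) - (Polynomial.X : Polynomial ℂ) • U.map Polynomial.C).det ^ k

/-- The average `N^{-k²} ∫_{U(N)} ∑_m f(m/N) |c_m(U)|² dU`, where `det(1 - X U)^k = ∑_m c_m(U) X^m`. -/
noncomputable def V (k : ℕ) (f : ℝ → ℝ) (N : ℕ) : ℝ :=
  ((N : ℝ) ^ (k ^ 2))⁻¹ * ∫ U : Matrix.unitaryGroup (Fin N) ℂ,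
    ∑ m ∈ Finset.range (k * N + 1), f (m / N) *
      ‖(P k (U : Matrix (Fin N) (Fin N) ℂ)).coeff m‖ ^ 2 ∂(haar N)

/-- The test functions: smooth and `0` outside the interval from `a` to `b`. -/
def Test (a b : ℝ) (f : ℝ → ℝ) : Prop := ContDiff ℝ ∞ f ∧ ∀ v : ℝ, v ≤ a ∨ b ≤ v → f v = 0

lemma W_eq (k : ℕ) (α : ℝ) (N : ℕ) : W k α N = Wk k α N := rfl

lemma P_eq (k : ℕ) {N : ℕ} (U : Matrix (Fin N) (Fin N) ℂ) : P k U = pp k U := by
  unfold P pp
  congr 2
  ext1 i j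
  simp only [Matrix.sub_apply, Matrix.add_apply, Matrix.smul_apply, Matrix.map_apply, Matrix.neg_apply,
    map_neg, smul_eq_mul, Matrix.one_apply]
  split_ifs <;> (simp; try ring)

lemma V_sum (k : ℕ) (f : ℝ → ℝ) (N : ℕ) :
    V k f N = ∑ m ∈ Finset.range (k * N + 1), f (m / N) * Pool.Agent.J4.H44.LP.mu k N m := by
  unfold V Pool.Agent.J4.H44.LP.mu
  simp only [P_eq]
  have e : haar N = haarU N := rfl
  rw [e, integral_finsetSum _ fun m _ => (co_int k N m).const_mul _, Finset.mul_sum]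
  refine Finset.sum_congr rfl fun m _ => ?_
  rw [integral_const_mul]
  ring

lemma V_eq (k : ℕ) (f : ℝ → ℝ) (N : ℕ) : ((V k f N : ℝ) : ℂ) = Vl k (fun v => ((f v : ℝ) : ℂ)) N := by
  rw [V_sum]
  unfold Vl
  push_cast
  rfl

lemma Δ_eq (k : ℕ) (u : ℝ) : Δ k (Real.exp u) = D0 k u := by
  unfold Δ R D0 Sk Rk RL
  have e : ∀ s : ℂ, ((Real.exp u : ℝ) : ℂ) ^ s = cexp (u * s) := by
    intro s
    rw [Complex.cpow_def_of_ne_zero (by exact_mod_cast (Real.exp_pos u).ne'),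
      ← Complex.ofReal_log (Real.exp_pos u).le, Real.log_exp]
  simp only [e]
  congr 1
  push_cast
  rfl

lemma Q_eq (k : ℕ) (α : ℝ) (T : ℝ) : Q k α T = Cor (zk k) (α / Real.log T) T / ((NN (k ^ 2) T : ℝ) : ℂ) := by
  unfold Q Cor NN
  have e : ∫ t in (0:ℝ)..T, riemannZeta (1 / 2 + I * α / Real.log T + I * t) ^ k *
      riemannZeta (1 / 2 + I * α / Real.log T - I * t) ^ k =
      ∫ t in (0:ℝ)..T, zk k (t + α / Real.log T) * conj (zk k (t + -(α / Real.log T))) := by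
    refine intervalIntegral.integral_congr fun t _ => ?_
    have e1 : (1 / 2 + I * α / Real.log T + I * t : ℂ) = 1 / 2 + ((t + α / Real.log T : ℝ) : ℂ) * I := by
      push_cast; ring
    have e2 : (1 / 2 + I * α / Real.log T - I * t : ℂ) =
        conj (1 / 2 + ((t + -(α / Real.log T) : ℝ) : ℂ) * I) := by
      rw [map_add, map_mul, conj_I, Complex.conj_ofReal, map_div₀, map_one, map_ofNat]
      push_cast
      ring
    unfold zk ze
    rw [e1, e2, riemannZeta_conj, ← map_pow]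
  rw [e, Complex.ofReal_mul, Complex.ofReal_pow, ← mul_inv]
  exact (div_eq_inv_mul _ _).symm

lemma sub_exp (g : ℝ → ℝ) : ∫ x in Ioi (0:ℝ), g x = ∫ u : ℝ, Real.exp u * g (Real.exp u) := by
  have h := integral_image_eq_integral_abs_deriv_smul (s := univ) (f := Real.exp) (f' := Real.exp)
    MeasurableSet.univ (fun x _ => (Real.hasDerivAt_exp x).hasDerivWithinAt) Real.exp_injective.injOn g
  rw [image_univ, Real.range_exp, Measure.restrict_univ] at h
  rw [h]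
  refine integral_congr_ae (Eventually.of_forall fun u => ?_)
  simp only [abs_of_pos (Real.exp_pos u), smul_eq_mul]

lemma Var_eq (k : ℕ) (f : ℝ → ℝ) {T : ℝ} (hT : 1 < T) : Var k f T⁻¹ = V1 k (k ^ 2) f T := by
  have hT0 : 0 < T := by linarith
  have hl := Real.log_pos hT
  unfold Var V1 Af
  rw [one_div, inv_inv, Nh_eq _ hT0, div_eq_inv_mul]
  congr 1
  rw [sub_exp]
  refine integral_congr_ae (Eventually.of_forall fun u => ?_)
  have hp : 0 < 1 + T⁻¹ := by positivity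
  have e1 : Real.exp u + T⁻¹ * Real.exp u = Real.exp (u + Real.log (1 + T⁻¹)) := by
    rw [Real.exp_add, Real.exp_log hp]; ring
  simp only
  rw [e1, Δ_eq, Δ_eq, Real.log_exp, sub_zero, Ee_sq, Real.exp_neg]
  have := (Real.exp_pos u).ne'
  field_simp

lemma lim_iff (k : ℕ) (f : ℝ → ℝ) (l : ℝ) : Tendsto (Var k f) (𝓝[>] 0) (𝓝 l) ↔
    Tendsto (V1 k (k ^ 2) f) atTop (𝓝 l) := by
  have h0 : Tendsto (Var k f) (𝓝[>] 0) (𝓝 l) ↔ Tendsto (fun T : ℝ => Var k f T⁻¹) atTop (𝓝 l) := by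
    refine ⟨fun h => h.comp tendsto_inv_atTop_nhdsGT_zero, fun h => ?_⟩
    have h1 := h.comp tendsto_inv_nhdsGT_zero
    refine h1.congr fun x => ?_
    simp only [Function.comp, inv_inv]
  rw [h0]
  refine tendsto_congr' ?_
  filter_upwards [eventually_gt_atTop 1] with T hT
  exact Var_eq k f hT

lemma TF_real {f : ℝ → ℝ} (hc : ContDiff ℝ ∞ f) (hs : HasCompactSupport f) :
    ∃ ξ : ℝ, 0 ≤ ξ ∧ TF ξ (fun v => ((f v : ℝ) : ℂ)) :=
  mk_TF ((ofRealCLM.contDiff (n := ∞)).comp hc) (hs.comp_left (g := Complex.ofReal) Complex.ofReal_zero)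

lemma Q_form {k : ℕ} {G : ℝ → ℂ} (h : ∀ α : ℝ, Tendsto (Q k α) atTop (𝓝 (G α))) (α : ℝ) :
    Tendsto (fun T => Cor (zk k) (α / Real.log T) T / ((NN (k ^ 2) T : ℝ) : ℂ)) atTop (𝓝 (G α)) :=
  (h α).congr fun T => Q_eq k α T

/-- shifted moments give the variance -/
lemma main {k : ℕ} {G : ℝ → ℂ} (h : ∀ α : ℝ, Tendsto (Q k α) atTop (𝓝 (G α))) {B : ℝ} (hB : 0 < B) {f : ℝ → ℝ}
    (hf : Tst B f) :
    Tendsto (Var k f) (𝓝[>] 0) (𝓝 (∫ y, KL (fun v => ((f v : ℝ) : ℂ)) 1 y * G (y / 2)).re) := by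
  rw [lim_iff]
  refine V0_V1 (k := k) (q := k ^ 2) (B2 := B + 1) hB (by linarith)
    (ℓ := fun f => (∫ y, KL (fun v => ((f v : ℝ) : ℂ)) 1 y * G (y / 2)).re) (fun g hg => ?_) hf
  obtain ⟨ξ, hξ, hT⟩ := TF_real hg.1 hg.2.1
  refine (fwd (Q_form h) hT).congr fun T => ?_
  unfold Af
  simp only [sub_zero]

/-- the variance gives the Gaussian windows -/
lemma main' {k : ℕ} {B1 B2 : ℝ} (hB1 : 0 < B1) (hB : B1 < B2) {ℓ : (ℝ → ℝ) → ℝ}
    (H : ∀ f : ℝ → ℝ, Tst B2 f → Tendsto (Var k f) (𝓝[>] 0) (𝓝 (ℓ f))) {f : ℝ → ℝ} (hf : Tst B1 f) :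
    Tendsto (fun T => St (Fh k T⁻¹) (Real.log T) f / NN (k ^ 2) T) atTop (𝓝 (√Real.pi * ℓ f)) := by
  have h1 := conv (k := k) (q := k ^ 2) (B1 := B1) (B2 := (B1 + B2) / 2) hB1 (by linarith) (ℓ := ℓ)
    (fun g hg1 hg2 hg3 => by
      refine (V1_V0 (k := k) (q := k ^ 2) (B1 := (B1 + B2) / 2) (B2 := B2) (by linarith) (by linarith) (ℓ := ℓ)
        (fun f hf => (lim_iff k f _).1 (H f hf)) (f := g) ⟨hg1, hg2, hg3⟩).congr fun T => ?_
      unfold Af
      simp only [sub_zero]) hf.1 hf.2.1 hf.2.2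
  refine h1.congr' ?_
  filter_upwards [eventually_gt_atTop 1] with T hT
  have hT0 : 0 < T := by linarith
  rw [int_St k (inv_pos.2 hT0)]
  unfold Nh
  have := (NN_pos (k ^ 2) hT).ne'
  field_simp

/-- a half-range cut-off -/
noncomputable def g0 (k : ℕ) (η : ℝ) (v : ℝ) : ℝ := Real.smoothTransition ((k / 2 + η - v) / (2 * η))

lemma g0_HR (k : ℕ) {η : ℝ} (hη : 0 < η) : HR k (k / 2 + η) (g0 k η) where
  cd := by
    unfold g0
    exact Real.smoothTransition.contDiff.comp ((contDiff_const.sub contDiff_id).div_const _)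
  sym v := by
    unfold g0
    have e : (k / 2 + η - ((k:ℝ) - v)) / (2 * η) = 1 - (k / 2 + η - v) / (2 * η) := by
      field_simp
      ring
    rw [e, st_symm]
    ring
  out v hv := by
    unfold g0
    exact Real.smoothTransition.zero_of_nonpos (div_nonpos_of_nonpos_of_nonneg (by linarith) (by positivity))

/-- the real and imaginary parts of the test functions -/
noncomputable def fr (k : ℕ) (g : ℝ → ℝ) (α v : ℝ) : ℝ := (ge k g α v).re
/-- the real and imaginary parts of the test functions -/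
noncomputable def fi (k : ℕ) (g : ℝ → ℝ) (α v : ℝ) : ℝ := (ge k g α v).im

lemma fr_test {k : ℕ} {B : ℝ} {g : ℝ → ℝ} (h : HR k B g) (α : ℝ) : Tst B (fr k g α) := by
  obtain ⟨ξ, hξ, hT⟩ := ge_TF h α
  refine ⟨(reCLM.contDiff (n := ∞)).comp hT.cd, hT.cs.comp_left (g := Complex.re) rfl, fun v hv => ?_⟩
  unfold fr ge
  rw [gc_out h hv]
  simp

lemma fi_test {k : ℕ} {B : ℝ} {g : ℝ → ℝ} (h : HR k B g) (α : ℝ) : Tst B (fi k g α) := by
  obtain ⟨ξ, hξ, hT⟩ := ge_TF h α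
  refine ⟨(imCLM.contDiff (n := ∞)).comp hT.cd, hT.cs.comp_left (g := Complex.im) rfl, fun v hv => ?_⟩
  unfold fi ge
  rw [gc_out h hv]
  simp

lemma ge_split (k : ℕ) (g : ℝ → ℝ) (α : ℝ) : ge k g α =
    fun v => ((fr k g α v : ℝ) : ℂ) + I * ((fi k g α v : ℝ) : ℂ) := by
  funext v
  unfold fr fi
  rw [mul_comm I]
  exact (Complex.re_add_im _).symm

lemma Sg_split {k : ℕ} {B : ℝ} {g : ℝ → ℝ} (h : HR k B g) (α : ℝ) {F : ℝ → ℂ}
    (hF : Dec F) (L : ℝ) :
    Sg F L (ge k g α) = (St F L (fr k g α) : ℂ) + I * (St F L (fi k g α) : ℂ) := by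
  obtain ⟨S, hS1, hS⟩ := h.bd
  have h1 := Sg_add hF L (g := fun v => ((fr k g α v : ℝ) : ℂ)) (g' := fun v => I * ((fi k g α v : ℝ) : ℂ))
    (Complex.continuous_ofReal.comp (fr_test h α).1.continuous)
    (continuous_const.mul (Complex.continuous_ofReal.comp (fi_test h α).1.continuous)) (S := S)
    (fun v => by
      rw [Complex.norm_real]
      exact (Complex.abs_re_le_norm _).trans (ge_norm hS α v))
    (fun v => by
      rw [norm_mul, norm_I, one_mul, Complex.norm_real]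
      exact (Complex.abs_im_le_norm _).trans (ge_norm hS α v))
  rw [Sg_smul, Sg_real (fr k g α), Sg_real (fi k g α)] at h1
  rw [ge_split]
  exact h1

lemma Vl_split (k : ℕ) (g : ℝ → ℝ) (α : ℝ) (N : ℕ) :
    Vl k (ge k g α) N = (V k (fr k g α) N : ℂ) + I * (V k (fi k g α) N : ℂ) := by
  rw [V_eq, V_eq, ge_split]
  unfold Vl
  rw [Finset.mul_sum, ← Finset.sum_add_distrib]
  refine Finset.sum_congr rfl fun m _ => ?_
  ring

/-- limits of the real test functions give those of the twisted ones -/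
lemma Sg_lim {k : ℕ} {B B2 : ℝ} (hB0 : 0 < B) (hB : B < B2) {g : ℝ → ℝ} (h : HR k B g) {L : (ℝ → ℝ) → ℝ}
    (hL : ∀ f : ℝ → ℝ, Tst B2 f → Tendsto (Var k f) (𝓝[>] 0) (𝓝 (L f))) (α : ℝ) :
    Tendsto (fun T => Sg (Fh k T⁻¹) (Real.log T) (ge k g α) / ((NN (k ^ 2) T : ℝ) : ℂ)) atTop
      (𝓝 (√Real.pi * ((L (fr k g α) : ℂ) + I * (L (fi k g α) : ℂ)))) := by
  have h1 := main' hB0 hB hL (fr_test h α)
  have h2 := main' hB0 hB hL (fi_test h α)
  have h3 := ((Complex.continuous_ofReal.tendsto _).comp h1).add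
    (((Complex.continuous_ofReal.tendsto _).comp h2).const_mul I)
  have e : (((√Real.pi * L (fr k g α) : ℝ) : ℂ) + I * ((√Real.pi * L (fi k g α) : ℝ) : ℂ)) =
      √Real.pi * ((L (fr k g α) : ℂ) + I * (L (fi k g α) : ℂ)) := by push_cast; ring
  rw [e] at h3
  refine h3.congr' ?_
  filter_upwards [eventually_gt_atTop 0] with T hT
  have hF := Fh_dec k (h := T⁻¹) (by positivity)
  rw [Sg_split h α hF]
  simp only [Function.comp]
  push_cast
  ring

/-- the limit at the first edge -/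
noncomputable def I0 (k : ℕ) (f : ℝ → ℝ) : ℝ := ∫ u in Ioi (0:ℝ), u ^ (k ^ 2 - 1) / (k ^ 2 - 1).factorial * f u

lemma V_edge {k : ℕ} (hk : 1 ≤ k) {b : ℝ} (hb : b < 1) {f : ℝ → ℝ} (hf : Tst b f) :
    Tendsto (V k f) atTop (𝓝 (I0 k f)) := by
  have h1 := Pool.Agent.J4.H44.WI.edge_sum hk (g := fun v => ((f v : ℝ) : ℂ))
    (Complex.continuous_ofReal.comp hf.1.continuous)
  have h2 := (Complex.continuous_re.tendsto _).comp h1
  have e : (∫ x in (0:ℝ)..1, (x : ℂ) ^ (k ^ 2 - 1) / (k ^ 2 - 1).factorial * (f x : ℂ)).re = I0 k f := by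
    have e1 : ∀ x : ℝ, (x : ℂ) ^ (k ^ 2 - 1) / (k ^ 2 - 1).factorial * (f x : ℂ) =
        ((x ^ (k ^ 2 - 1) / (k ^ 2 - 1).factorial * f x : ℝ) : ℂ) := fun x => by push_cast; rfl
    simp only [e1]
    rw [intervalIntegral.integral_ofReal, Complex.ofReal_re, intervalIntegral.integral_of_le zero_le_one]
    unfold I0
    refine (setIntegral_eq_of_subset_of_forall_sdiff_eq_zero measurableSet_Ioi Ioc_subset_Ioi_self ?_).symm
    rintro x ⟨h1, h2⟩
    have : 1 < x := by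
      by_contra h3
      exact h2 ⟨h1, not_lt.1 h3⟩
    rw [hf.2.2 x (by linarith), mul_zero]
  rw [e] at h2
  refine h2.congr' ?_
  filter_upwards [eventually_ge_atTop 1] with N hN
  simp only [Function.comp]
  have hN0 : (0:ℝ) < N := by exact_mod_cast hN
  rw [V_sum, Complex.re_sum]
  have e2 : ∀ m : ℕ, ((Pool.Agent.J4.H44.LP.mu k N m : ℂ) * ((f (m / N) : ℝ) : ℂ)).re =
      f (m / N) * Pool.Agent.J4.H44.LP.mu k N m := fun m => by
    rw [← Complex.ofReal_mul, Complex.ofReal_re, mul_comm]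
  simp only [e2]
  refine Finset.sum_subset ?_ ?_
  · intro m hm
    rw [Finset.mem_range] at hm ⊢
    nlinarith
  · intro m _ hm
    rw [Finset.mem_range, not_lt] at hm
    have : (1:ℝ) ≤ m / N := by
      rw [one_le_div hN0]
      exact_mod_cast hm
    rw [hf.2.2 _ (by linarith), zero_mul]

lemma ak_eq (k : ℕ) : ak k = Pool.Agent.H306R2.aF (k : ℝ) := aF_card k

lemma Ga_of {B : ℝ} (hB : 0 < B) {f : ℝ → ℝ} (hf : Tst B f) : ∃ R C1 S : ℝ, 0 ≤ R ∧ Ga f B R C1 S := by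
  obtain ⟨C1, S, R, h⟩ := mk_Td hB hf.1 hf.2.1 hf.2.2
  exact ⟨R, C1, S, Nat.cast_nonneg R, h.cont, h.hC1, h.lip, h.bd, h.edge, fun v hv => h.out v (by
    rw [abs_of_nonpos (by linarith [(Nat.cast_nonneg R : (0:ℝ) ≤ R)])]
    linarith)⟩

lemma Var_edge {k : ℕ} (hk : 1 ≤ k) {b : ℝ} (hb0 : 0 < b) (hb : b < 1) {f : ℝ → ℝ} (hf : Tst b f) :
    Tendsto (Var k f) (𝓝[>] 0) (𝓝 (ak k * I0 k f)) := by
  rw [lim_iff]
  refine V0_V1 (k := k) (q := k ^ 2) (B1 := b) (B2 := (b + 1) / 2) hb0 (by linarith)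
    (ℓ := fun f => ak k * I0 k f) (fun g hg => ?_) hf
  obtain ⟨R, C1, S, hR, h⟩ := Ga_of (by linarith) hg
  have h1 := Ee_lim hk h hR (by linarith : 0 < (b + 1) / 2) (by linarith)
  have e : El k g = ak k * I0 k g := by
    unfold El I0
    rw [ak_eq, Pool.Agent.W182.KO.gd_int hk]
  rw [e] at h1
  refine h1.congr fun T => ?_
  unfold Af
  simp only [sub_zero]

lemma V_add (k : ℕ) (f g : ℝ → ℝ) (N : ℕ) : V k (fun v => f v + g v) N = V k f N + V k g N := by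
  rw [V_sum, V_sum, V_sum, ← Finset.sum_add_distrib]
  refine Finset.sum_congr rfl fun m _ => ?_
  ring

lemma V1_add {k : ℕ} {f g : ℝ → ℝ} {B B' : ℝ} (hB : 0 < B) (hB' : 0 < B') (hf : Tst B f) (hg : Tst B' g) {T : ℝ}
    (hT : 1 < T) : V1 k (k ^ 2) (fun v => f v + g v) T = V1 k (k ^ 2) f T + V1 k (k ^ 2) g T := by
  obtain ⟨R, C1, S, hR, h⟩ := Ga_of hB hf
  obtain ⟨R', C1', S', hR', h'⟩ := Ga_of hB' hg
  have hL := Real.log_pos hT
  have i1 := gE_int k (Real.log (1 + T⁻¹)) (h.cont.comp (by fun_prop : Continuous fun u : ℝ => u / Real.log T)) (h.cs hL)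
  have i2 := gE_int k (Real.log (1 + T⁻¹)) (h'.cont.comp (by fun_prop : Continuous fun u : ℝ => u / Real.log T)) (h'.cs hL)
  unfold V1 Af
  rw [← add_div]
  congr 1
  simp only [sub_zero]
  simp only [Function.comp] at i1 i2
  rw [← integral_add i1 i2]
  refine integral_congr_ae (Eventually.of_forall fun v => ?_)
  simp only
  ring

lemma Var_add {k : ℕ} {f g : ℝ → ℝ} {B B' l l' : ℝ} (hB : 0 < B) (hB' : 0 < B') (hf : Tst B f) (hg : Tst B' g)
    (h1 : Tendsto (Var k f) (𝓝[>] 0) (𝓝 l)) (h2 : Tendsto (Var k g) (𝓝[>] 0) (𝓝 l')) :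
    Tendsto (Var k (fun v => f v + g v)) (𝓝[>] 0) (𝓝 (l + l')) := by
  rw [lim_iff] at h1 h2 ⊢
  refine (h1.add h2).congr' ?_
  filter_upwards [eventually_gt_atTop 1] with T hT
  exact (V1_add hB hB' hf hg hT).symm

/-- the unconditional first edge -/
lemma split {k : ℕ} (hk : 1 ≤ k) {η : ℝ} (hη : 0 < η) (H : ∀ f : ℝ → ℝ, Test (1 - η) (k / 2 + η) f →
    ∃ v : ℝ, Tendsto (V k f) atTop (𝓝 v) ∧ Tendsto (Var k f) (𝓝[>] 0) (𝓝 (ak k * v))) {f : ℝ → ℝ}
    (hf : Tst (k / 2 + η) f) :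
    ∃ v : ℝ, Tendsto (V k f) atTop (𝓝 v) ∧ Tendsto (Var k f) (𝓝[>] 0) (𝓝 (ak k * v)) := by
  have hk0 : (0:ℝ) < k / 2 + η := by positivity
  obtain ⟨e, he⟩ : ∃ e : ℝ, e = min η 1 / 2 := ⟨_, rfl⟩
  have he0 : 0 < e := by rw [he]; positivity
  have he1 : 2 * e ≤ η := by rw [he]; linarith [min_le_left η 1]
  have he2 : 2 * e ≤ 1 := by rw [he]; linarith [min_le_right η 1]
  set χ : ℝ → ℝ := fun v => Real.smoothTransition ((v - (1 - 2 * e)) / e) with hχ
  have cχ : ContDiff ℝ ∞ χ :=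
    Real.smoothTransition.contDiff.comp ((contDiff_id.sub contDiff_const).div_const _)
  have χ0 : ∀ v, v ≤ 1 - 2 * e → χ v = 0 := fun v hv =>
    Real.smoothTransition.zero_of_nonpos (div_nonpos_of_nonpos_of_nonneg (by linarith) he0.le)
  have χ1 : ∀ v, 1 - e ≤ v → χ v = 1 := fun v hv =>
    Real.smoothTransition.one_of_one_le (by rw [one_le_div he0]; linarith)
  have t1 : Test (1 - η) (k / 2 + η) (fun v => f v * χ v) := by
    refine ⟨hf.1.mul cχ, fun v hv => ?_⟩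
    rcases hv with hv | hv
    · simp only
      rw [χ0 v (by linarith), mul_zero]
    · simp only
      rw [hf.2.2 v hv, zero_mul]
  have t1' : Tst (k / 2 + η) (fun v => f v * χ v) := by
    refine ⟨hf.1.mul cχ, hf.2.1.mul_right, fun v hv => ?_⟩
    simp only
    rw [hf.2.2 v hv, zero_mul]
  have t2 : Tst (1 - e) (fun v => f v * (1 - χ v)) := by
    refine ⟨hf.1.mul (contDiff_const.sub cχ), hf.2.1.mul_right, fun v hv => ?_⟩
    simp only
    rw [χ1 v hv, sub_self, mul_zero]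
  obtain ⟨v1, a1, a2⟩ := H _ t1
  have b1 := V_edge hk (by linarith : 1 - e < 1) t2
  have b2 := Var_edge hk (by linarith) (by linarith : 1 - e < 1) t2
  have ef : (fun v => f v * χ v + f v * (1 - χ v)) = f := by
    funext v; ring
  refine ⟨v1 + I0 k (fun v => f v * (1 - χ v)), ?_, ?_⟩
  · have h1 := a1.add b1
    refine h1.congr fun N => ?_
    rw [← V_add, ef]
  · have h1 := Var_add (by linarith) (by linarith) t1' t2 a2 b2
    rw [ef, ← mul_add] at h1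
    exact h1

/-- the equivalence with the variance -/
theorem var_iff (k : ℕ) (hk : 1 ≤ k) (η : ℝ) (hη : 0 < η) :
    (∀ α : ℝ, ∃ w : ℂ, Tendsto (W k α) atTop (𝓝 w) ∧ Tendsto (Q k α) atTop (𝓝 (ak k * w))) ↔
      ∀ f : ℝ → ℝ, Test (1 - η) (k / 2 + η) f →
        ∃ v : ℝ, Tendsto (V k f) atTop (𝓝 v) ∧ Tendsto (Var k f) (𝓝[>] 0) (𝓝 (ak k * v)) := by
  have hQ : ∀ α, Q k α = fun T => Cor (zk k) (α / Real.log T) T / ((NN (k ^ 2) T : ℝ) : ℂ) :=
    fun α => funext (Q_eq k α)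
  have hk0 : (0:ℝ) ≤ k := Nat.cast_nonneg k
  have hη2 : 0 < η / 2 := by positivity
  have hg := g0_HR k hη2
  have hB0 : (0:ℝ) < k / 2 + η / 2 := by positivity
  have hB : (k:ℝ) / 2 + η / 2 < k / 2 + η := by linarith
  refine ⟨fun h f hf' => ?_, fun h0 α => ?_⟩
  · have hf : Tst (k / 2 + η) f := by
      refine ⟨hf'.1, HasCompactSupport.intro (isCompact_Icc (a := 1 - η) (b := k / 2 + η)) fun v hv => ?_,
        fun v hv => hf'.2 v (Or.inr hv)⟩
      rw [mem_Icc, not_and_or, not_le, not_le] at hv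
      exact hf'.2 v (hv.imp le_of_lt le_of_lt)
    choose w hw hq using h
    obtain ⟨ξ, hξ, hT⟩ := TF_real hf.1 hf.2.1
    have l1 := Vl_lim k hT hw
    have l2 := main (G := fun α => ak k * w α) hq (B := k / 2 + η) (by positivity) hf
    have e : ∫ y : ℝ, KL (fun v => ((f v : ℝ) : ℂ)) 1 y * (ak k * w (y / 2)) =
        ak k * ∫ y, KL (fun v => ((f v : ℝ) : ℂ)) 1 y * w (y / 2) := by
      rw [← integral_const_mul]
      refine integral_congr_ae (Eventually.of_forall fun y => ?_)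
      simp only
      ring
    rw [e, Complex.re_ofReal_mul] at l2
    refine ⟨(∫ y, KL (fun v => ((f v : ℝ) : ℂ)) 1 y * w (y / 2)).re, ?_, l2⟩
    have h1 := (Complex.continuous_re.tendsto _).comp l1
    refine h1.congr fun N => ?_
    simp only [Function.comp]
    rw [← V_eq, Complex.ofReal_re]
  · have h := fun (f : ℝ → ℝ) (hf : Tst (k / 2 + η) f) => split hk hη h0 hf
    have h' : ∀ f : ℝ → ℝ, ∃ v : ℝ, Tst (k / 2 + η) f →
        Tendsto (V k f) atTop (𝓝 v) ∧ Tendsto (Var k f) (𝓝[>] 0) (𝓝 (ak k * v)) := by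
      intro f
      by_cases hf : Tst (k / 2 + η) f
      · obtain ⟨L, hL⟩ := h f hf
        exact ⟨L, fun _ => hL⟩
      · exact ⟨0, fun a => absurd a hf⟩
    choose v hv using h'
    set g := g0 k (η / 2) with hgdef
    have up : ∀ f : ℝ → ℝ, Tst (k / 2 + η / 2) f → Tst (k / 2 + η) f := fun f hf =>
      ⟨hf.1, hf.2.1, fun x hx => hf.2.2 x (hB.le.trans hx)⟩
    have hZ : ∀ α : ℝ, Tendsto (fun N => Vl k (ge k g α) N) atTop
        (𝓝 ((v (fr k g α) : ℂ) + I * (v (fi k g α) : ℂ))) := by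
      intro α
      have h1 := (Complex.continuous_ofReal.tendsto _).comp (hv _ (up _ (fr_test hg α))).1
      have h2 := (Complex.continuous_ofReal.tendsto _).comp (hv _ (up _ (fi_test hg α))).1
      refine (h1.add (h2.const_mul I)).congr fun N => ?_
      simp only [Function.comp]
      rw [Vl_split]
    have h3 := half_shifts hg (q := k ^ 2) (Z := fun α => (((ak k * v (fr k g α) : ℝ)) : ℂ) +
      I * ((ak k * v (fi k g α) : ℝ) : ℂ)) (fun α => Sg_lim hB0 hB hg (L := fun f => ak k * v f)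
        (fun f hf => (hv f hf).2) α) α
    refine ⟨((v (fr k g α) : ℂ) + I * (v (fi k g α) : ℂ)) + cexp (-(2 * α * k : ℝ) * I) *
      conj ((v (fr k g α) : ℂ) + I * (v (fi k g α) : ℂ)), ?_, ?_⟩
    · have h4 := (hZ α).add (((Complex.continuous_conj.tendsto _).comp (hZ α)).const_mul
        (cexp (-(2 * α * k : ℝ) * I)))
      refine h4.congr' ?_
      filter_upwards [eventually_ge_atTop 1] with N hN
      simp only [Function.comp]
      rw [W_eq, ← Wk_half hg α hN]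
    · rw [hQ]
      convert h3 using 2
      simp only [map_add, map_mul, conj_ofReal, conj_I]
      push_cast
      ring

lemma Corr_eq (k : ℕ) (f : ℝ → ℝ) {T : ℝ} (hT : 1 < T) : Corr k f T⁻¹ = Cw k f T := by
  have hT0 : 0 < T := by linarith
  unfold Corr Cw
  rw [one_div, inv_inv, Nh_eq _ hT0, div_eq_inv_mul]
  congr 1
  rw [sub_exp]
  refine integral_congr_ae (Eventually.of_forall fun u => ?_)
  simp only
  rw [Real.log_exp, co_eq k hT, Real.exp_neg]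
  have := (Real.exp_pos u).ne'
  have e1 : pairs k T⁻¹ (Real.exp u) = Pr k T⁻¹ (Real.exp u) := rfl
  have e2 : ∀ x, R k x = Rx k x := fun x => rfl
  rw [e1, e2, e2]
  field_simp

lemma corr_lim_iff (k : ℕ) (f : ℝ → ℝ) (l : ℝ) : Tendsto (Corr k f) (𝓝[>] 0) (𝓝 l) ↔
    Tendsto (Cw k f) atTop (𝓝 l) := by
  have h0 : Tendsto (Corr k f) (𝓝[>] 0) (𝓝 l) ↔ Tendsto (fun T : ℝ => Corr k f T⁻¹) atTop (𝓝 l) := by
    refine ⟨fun h => h.comp tendsto_inv_atTop_nhdsGT_zero, fun h => ?_⟩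
    have h1 := h.comp tendsto_inv_nhdsGT_zero
    refine h1.congr fun x => ?_
    simp only [Function.comp, inv_inv]
  rw [h0]
  refine tendsto_congr' ?_
  filter_upwards [eventually_gt_atTop 1] with T hT
  exact Corr_eq k f hT

lemma var_corr {k : ℕ} (hk : 1 ≤ k) {B : ℝ} (hB : 0 < B) {f : ℝ → ℝ} (hf : Tst B f) (v : ℝ) :
    Tendsto (Var k f) (𝓝[>] 0) (𝓝 (ak k * v)) ↔ Tendsto (Corr k f) (𝓝[>] 0) (𝓝 (ak k * (v - I0 k f))) := by
  rw [lim_iff, corr_lim_iff]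
  have hd := co_diff2 hk hf.1 hf.2.1 hf.2.2 hB
  have e : Pool.Agent.H306R2.aF (k:ℝ) * J0 k f = ak k * I0 k f := by rw [ak_eq]; rfl
  rw [e] at hd
  constructor
  · intro h1
    have h2 := h1.sub hd
    rw [← mul_sub] at h2
    exact h2.congr fun T => by ring
  · intro h1
    have h2 := h1.add hd
    rw [← mul_add, sub_add_cancel] at h2
    exact h2.congr fun T => by ring

/-- For every `k ≥ 1` and `η > 0`, the conjecture for `k` (for all real `α`) holds if and only if, for all smooth test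
functions `f` vanishing outside `[1 - η, k/2 + η]`, the averages `V` converge to some `v` and the variances `Var` to
`a_k v`, and if and only if, for these `f`, the `V` converge to some `v` and the means `Corr` of the correlations to
`a_k (v - ∫_0^∞ u^(k²-1)/(k²-1)! f(u) du)`. -/
theorem result (k : ℕ) (hk : 1 ≤ k) (η : ℝ) (hη : 0 < η) :
    ((∀ α : ℝ, ∃ w : ℂ, Tendsto (W k α) atTop (𝓝 w) ∧ Tendsto (Q k α) atTop (𝓝 (ak k * w))) ↔
      ∀ f : ℝ → ℝ, Test (1 - η) (k / 2 + η) f →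
        ∃ v : ℝ, Tendsto (V k f) atTop (𝓝 v) ∧ Tendsto (Var k f) (𝓝[>] 0) (𝓝 (ak k * v))) ∧
    ((∀ α : ℝ, ∃ w : ℂ, Tendsto (W k α) atTop (𝓝 w) ∧ Tendsto (Q k α) atTop (𝓝 (ak k * w))) ↔
      ∀ f : ℝ → ℝ, Test (1 - η) (k / 2 + η) f →
        ∃ v : ℝ, Tendsto (V k f) atTop (𝓝 v) ∧ Tendsto (Corr k f) (𝓝[>] 0)
          (𝓝 (ak k * (v - ∫ u in Ioi (0:ℝ), u ^ (k ^ 2 - 1) / (k ^ 2 - 1).factorial * f u)))) := by
  have h1 := var_iff k hk η hη
  refine ⟨h1, h1.trans ?_⟩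
  refine forall_congr' fun f => forall_congr' fun hf' => exists_congr fun v => and_congr_right fun _ => ?_
  have hf : Tst (k / 2 + η) f := by
    refine ⟨hf'.1, HasCompactSupport.intro (isCompact_Icc (a := 1 - η) (b := k / 2 + η)) fun v hv => ?_,
      fun v hv => hf'.2 v (Or.inr hv)⟩
    rw [mem_Icc, not_and_or, not_le, not_le] at hv
    exact hf'.2 v (hv.imp le_of_lt le_of_lt)
  exact var_corr hk (by positivity) hf v

end Pool.Agent.Results.MP_069854_nt.ClassicalShortIntervals
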