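import Pool.Agent.J4.H44.WI.U8
import Pool.Agent.J4.H44.LP.Ak

set_option autoImplicit false

/-!
# Kösters' conjecture from shifts that are complete on the middle of the spectrum
-/

namespace Pool.Agent.Results.MP_069854_nt.MiddleShifts

open Complex MeasureTheory Filter Topology Set Pool.Agent.TH535.SM Pool.Agent.R446.KR Pool.Agent.J4.H44.LP
open Pool.Agent.J4.H44.WI
open scoped ComplexConjugate Matrix

/-- The normalised shifted moment `Q_k(α,T)` of the problem. -/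
noncomputable def Q (k : ℕ) (α : ℝ) (T : ℝ) : ℂ :=
  (T : ℂ)⁻¹ * ((Real.log T : ℂ) ^ (k ^ 2))⁻¹ *
    ∫ t in (0:ℝ)..T, riemannZeta (1 / 2 + I * α / Real.log T + I * t) ^ k *
      riemannZeta (1 / 2 + I * α / Real.log T - I * t) ^ k

/-- The normalised Haar measure `dU` of `U(N)`. -/
noncomputable def haar (N : ℕ) : Measure (Matrix.unitaryGroup (Fin N) ℂ) := Measure.haarMeasure ⊤

/-- The matrix integral `W_k(α,N)` of the problem. -/
noncomputable def W (k : ℕ) (α : ℝ) (N : ℕ) : ℂ :=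
  ((N : ℂ) ^ (k ^ 2))⁻¹ * ∫ U : Matrix.unitaryGroup (Fin N) ℂ,
    (1 - cexp (-(I * α / N)) • (U : Matrix (Fin N) (Fin N) ℂ)).det ^ k *
      (1 - cexp (-(I * α / N)) • (U : Matrix (Fin N) (Fin N) ℂ)ᴴ).det ^ k ∂(haar N)

/-- The number `d_k(n)` of ordered factorisations of `n` into `k` positive factors. -/
def dk (k n : ℕ) : ℕ := (Nat.finMulAntidiag k n).card

/-- The arithmetic constant `a_k`. -/
noncomputable def ak (k : ℕ) : ℝ := ∏' p : Nat.Primes, (1 - 1 / (p : ℝ)) ^ (k ^ 2) *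
  ∑' m : ℕ, (dk k ((p : ℕ) ^ m) : ℝ) ^ 2 / (p : ℝ) ^ m

/-- The exponentials `e^{-2iav}`, `a ∈ A`, span a dense set on a neighbourhood of the middle
`1 ≤ v ≤ k - 1` of the spectrum `[0,k]`: every exponential is a uniform limit of their linear
combinations. -/
def Complete (k : ℕ) (A : Set ℝ) : Prop := ∃ δ : ℝ, 0 < δ ∧ ∀ α ε : ℝ, 0 < ε →
  ∃ (s : Finset ℝ) (c : ℝ → ℂ), (∀ a ∈ s, a ∈ A) ∧ ∀ v : ℝ, 1 - δ ≤ v → v ≤ k - 1 + δ →
    ‖cexp (-(2 * α * v) * I) - ∑ a ∈ s, c a * cexp (-(2 * a * v) * I)‖ ≤ ε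

/-- The conjecture for `k` and the shift `α`: the limit of `Q_k(α,T)` is `a_k` times that of `W_k(α,N)`. -/
def Holds (k : ℕ) (α : ℝ) : Prop :=
  ∃ w : ℂ, Tendsto (W k α) atTop (𝓝 w) ∧ Tendsto (Q k α) atTop (𝓝 (ak k * w))

/-- The moment `∫_0^T |ζ(1/2+it)|^{2k} dt`. -/
noncomputable def mom (k : ℕ) (T : ℝ) : ℝ := ∫ t in (0:ℝ)..T, ‖riemannZeta (1 / 2 + I * t)‖ ^ (2 * k)

lemma mom_eq (k : ℕ) (T : ℝ) : mom k T = M (zk k) T := by
  unfold mom M
  refine intervalIntegral.integral_congr fun t _ => ?_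
  unfold zk ze
  rw [norm_pow, ← pow_mul, mul_comm k 2, mul_comm I]

lemma ak_eq (k : ℕ) : ak k = Pool.Agent.H306R2.aF (k : ℝ) := aF_card k

lemma Q_eq (k : ℕ) (α T : ℝ) : Q k α T = Qn k α T := by
  unfold Q Qn Cor NN
  have e : ∫ t in (0:ℝ)..T, riemannZeta (1 / 2 + I * α / Real.log T + I * t) ^ k *
      riemannZeta (1 / 2 + I * α / Real.log T - I * t) ^ k =
      ∫ t in (0:ℝ)..T, zk k (t + α / Real.log T) * conj (zk k (t + -(α / Real.log T))) := by
    refine intervalIntegral.integral_congr fun t _ => ?_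
    have e1 : (1 / 2 + I * α / Real.log T + I * t : ℂ) = 1 / 2 + ((t + α / Real.log T : ℝ) : ℂ) * I := by
      push_cast; ring
    have e2 : (1 / 2 + I * α / Real.log T - I * t : ℂ) =
        conj (1 / 2 + ((t + -(α / Real.log T) : ℝ) : ℂ) * I) := by
      rw [map_add, map_mul, conj_I, Complex.conj_ofReal, map_div₀, map_one, map_ofNat]
      push_cast
      ring
    unfold zk ze
    rw [e1, e2, riemannZeta_conj, ← map_pow]
  rw [e, Complex.ofReal_mul, Complex.ofReal_pow, ← mul_inv]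
  exact (div_eq_inv_mul _ _).symm

lemma ev_eq (α v : ℝ) : cexp (-(2 * α * v) * I) = ev α v := by
  unfold ev
  push_cast
  rfl

lemma comp_iff (k : ℕ) (A : Set ℝ) : Complete k A ↔ ∃ δ : ℝ, 0 < δ ∧ Cmp k A δ := by
  unfold Complete Cmp fc
  simp only [ev_eq]

/-- Let `k ≥ 2`.
(0) Sets with infinitely many points in a bounded interval are complete, and so are one-sided
arithmetic progressions `c m`, `m ≥ m₀`, of step `c > 0` with `c (k-2) < π`.
Let `A` be complete. (1) If `Q_k(a,T)` converges for all `a ∈ A` then it converges for all real shifts.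
(2) If the conjecture for `k` holds for the shifts in `A` then it holds for all real shifts.
(3) There are finitely many shifts in `A` such that the `2k`-th moment is `≪ T log^{k²} T` if and only
if the moments with these shifts are bounded. -/
theorem result (k : ℕ) (hk : 2 ≤ k) :
    (∀ (A : Set ℝ) (R : ℝ), (A ∩ Icc (-R) R).Infinite → Complete k A) ∧
    (∀ (A : Set ℝ) (c : ℝ) (m₀ : ℕ), 0 < c → c * (k - 2) < Real.pi → (∀ m : ℕ, m₀ ≤ m → c * m ∈ A) →
      Complete k A) ∧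
    (∀ A : Set ℝ, Complete k A →
      ((∀ a ∈ A, ∃ L : ℂ, Tendsto (Q k a) atTop (𝓝 L)) → ∀ α : ℝ, ∃ L : ℂ, Tendsto (Q k α) atTop (𝓝 L)) ∧
      ((∀ a ∈ A, Holds k a) → ∀ α : ℝ, Holds k α) ∧
      ∃ s : Finset ℝ, (∀ a ∈ s, a ∈ A) ∧
        ((∃ C : ℝ, ∀ᶠ T : ℝ in atTop, mom k T ≤ C * (T * Real.log T ^ (k ^ 2))) ↔
          ∀ a ∈ s, ∃ B : ℝ, ∀ᶠ T : ℝ in atTop, ‖Q k a T‖ ≤ B)) := by
  have hQ : ∀ α, Q k α = Qn k α := fun α => funext (Q_eq k α)
  refine ⟨fun A R hR => (comp_iff k A).2 ⟨1, one_pos, cmp_of_infinite k hR 1⟩, fun A c m₀ hc hcp hA =>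
    (comp_iff k A).2 (cmp_of_prog k hc hcp hA), fun A hA => ?_⟩
  obtain ⟨δ, hδ, hC⟩ := (comp_iff k A).1 hA
  simp only [Holds, hQ]
  refine ⟨fun h α => ?_, fun h α => ?_, ?_⟩
  · have h' : ∀ a : ℝ, ∃ L : ℂ, a ∈ A → Tendsto (Qn k a) atTop (𝓝 L) := fun a => by
      by_cases ha : a ∈ A
      · obtain ⟨L, hL⟩ := h a ha
        exact ⟨L, fun _ => hL⟩
      · exact ⟨0, fun h => absurd h ha⟩
    choose G hG using h'
    obtain ⟨l, hl, -⟩ := sh_all hk hδ hC (G := G) hG α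
    exact ⟨l, hl⟩
  · have h1 := W_lim hk hδ hC (fun a ha => by
      obtain ⟨w, hw, -⟩ := h a ha
      exact ⟨w, hw⟩)
    choose w hw using h1
    refine ⟨w α, hw α, ?_⟩
    rw [ak_eq]
    refine mid_match hk hδ hC (W := w) hw (fun a ha => ?_) α
    obtain ⟨w', h2, h3⟩ := h a ha
    have e : w' = w a := tendsto_nhds_unique h2 (hw a)
    rw [ak_eq, e] at h3
    exact h3
  · obtain ⟨s, hs, h⟩ := sh_O hk hδ hC
    refine ⟨s, hs, Iff.trans ?_ h⟩
    simp only [mom_eq]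
    rfl

end Pool.Agent.Results.MP_069854_nt.MiddleShifts
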