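import Pool.Agent.J4.H44.OL.Ex

set_option autoImplicit false

/-!
# Shifted moments of zeta off the critical line: rigidity
-/

namespace Pool.Agent.Results.MP_069854_nt.OffLineRigidity

open Complex MeasureTheory Filter Topology Set Pool.Agent.TH535.SM Pool.Agent.R446.KR Pool.Agent.J4.H44.OL
open scoped ComplexConjugate Matrix

/-- The normalised shifted moment `Q_k(α,T)` of the problem, for complex `α`. For real `α` the argument of
the zeta functions is on the critical line, for `α = β - i a` it is at distance `a / log T` to its right. -/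
noncomputable def Q (k : ℕ) (α : ℂ) (T : ℝ) : ℂ :=
  (T : ℂ)⁻¹ * ((Real.log T : ℂ) ^ (k ^ 2))⁻¹ *
    ∫ t in (0:ℝ)..T, riemannZeta (1 / 2 + I * α / Real.log T + I * t) ^ k *
      riemannZeta (1 / 2 + I * α / Real.log T - I * t) ^ k

/-- The normalised Haar measure `dU` of `U(N)`. -/
noncomputable def haar (N : ℕ) : Measure (Matrix.unitaryGroup (Fin N) ℂ) := Measure.haarMeasure ⊤

/-- The matrix integral `W_k(α,N)` of the problem, for complex `α`. -/
noncomputable def W (k : ℕ) (α : ℂ) (N : ℕ) : ℂ :=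
  ((N : ℂ) ^ (k ^ 2))⁻¹ * ∫ U : Matrix.unitaryGroup (Fin N) ℂ,
    (1 - cexp (-(I * α / N)) • (U : Matrix (Fin N) (Fin N) ℂ)).det ^ k *
      (1 - cexp (-(I * α / N)) • (U : Matrix (Fin N) (Fin N) ℂ)ᴴ).det ^ k ∂(haar N)

/-- The number `d_k(n)` of ordered factorisations of `n` into `k` positive factors. -/
def dk (k n : ℕ) : ℕ := (Nat.finMulAntidiag k n).card

/-- The arithmetic constant `a_k`. -/
noncomputable def ak (k : ℕ) : ℝ := ∏' p : Nat.Primes, (1 - 1 / (p : ℝ)) ^ (k ^ 2) *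
  ∑' m : ℕ, (dk k ((p : ℕ) ^ m) : ℝ) ^ 2 / (p : ℝ) ^ m

/-- The admissible sets of shifts: infinitely many points in a bounded region, or a lattice `c ℤ` of real
shifts with `0 < c < π / k`, or a progression `-i c m`, `m ≥ m₀`, on the negative imaginary axis. -/
def Admissible (k : ℕ) (A : Set ℂ) : Prop :=
  (∃ R : ℝ, (A ∩ Metric.closedBall 0 R).Infinite) ∨
  (∃ c : ℝ, 0 < c ∧ c * k < Real.pi ∧ ∀ m : ℤ, ((c * m : ℝ) : ℂ) ∈ A) ∨
  ∃ (c : ℝ) (m₀ : ℕ), 0 < c ∧ ∀ m : ℕ, m₀ ≤ m → -(I * ((c * m : ℝ) : ℂ)) ∈ A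

lemma W_eq (k : ℕ) (α : ℂ) (N : ℕ) : W k α N = Wc k (I * α) N := rfl

lemma Q_eq (k : ℕ) (α : ℂ) (T : ℝ) : Q k α T = CT k T (I * α) / ((NN (k ^ 2) T : ℝ) : ℂ) := by
  unfold Q CT Cor NN
  have e : ∫ t in (0:ℝ)..T, riemannZeta (1 / 2 + I * α / Real.log T + I * t) ^ k *
      riemannZeta (1 / 2 + I * α / Real.log T - I * t) ^ k =
      ∫ t in (0:ℝ)..T, zr k ((I * α).re / Real.log T) (t + (I * α).im / Real.log T) *
        conj (zr k ((I * α).re / Real.log T) (t + -((I * α).im / Real.log T))) := by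
    refine intervalIntegral.integral_congr fun t _ => ?_
    have hs : I * α / Real.log T = (((I * α).re / Real.log T : ℝ) : ℂ) +
        (((I * α).im / Real.log T : ℝ) : ℂ) * I := by
      rw [Complex.ofReal_div, Complex.ofReal_div, div_mul_eq_mul_div, ← add_div, Complex.re_add_im]
    have e1 : (1 / 2 + I * α / Real.log T + I * t : ℂ) = ((1 / 2 + (I * α).re / Real.log T : ℝ) : ℂ) +
        ((t + (I * α).im / Real.log T : ℝ) : ℂ) * I := by
      rw [hs]; push_cast; ring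
    have e2 : (1 / 2 + I * α / Real.log T - I * t : ℂ) =
        conj (((1 / 2 + (I * α).re / Real.log T : ℝ) : ℂ) +
          ((t + -((I * α).im / Real.log T) : ℝ) : ℂ) * I) := by
      rw [hs, map_add, map_mul, conj_I, Complex.conj_ofReal, Complex.conj_ofReal]
      push_cast
      ring
    unfold zr
    rw [e1, e2, riemannZeta_conj, ← map_pow]
  rw [e, Complex.ofReal_mul, Complex.ofReal_pow, ← mul_inv]
  exact (div_eq_inv_mul _ _).symm

lemma Q_zero (k : ℕ) (T : ℝ) : (Q k 0 T).re = M (zr k 0) T / NN (k ^ 2) T := by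
  rw [Q_eq, mul_zero, CT_zero, ← Complex.ofReal_div, Complex.ofReal_re]

/-- the set of the numbers `i α` -/
def rot (A : Set ℂ) : Set ℂ := {s | -(I * s) ∈ A}

lemma rot_mem {A : Set ℂ} {a : ℂ} : I * a ∈ rot A ↔ a ∈ A := by
  unfold rot
  rw [Set.mem_ofPred_eq, ← mul_assoc, I_mul_I, neg_one_mul, neg_neg]

lemma mul_neg_I (s : ℂ) : I * -(I * s) = s := by
  rw [mul_neg, ← mul_assoc, I_mul_I, neg_one_mul, neg_neg]

lemma rot_cpl {k : ℕ} {A : Set ℂ} (hA : Admissible k A) : CplC (rot A) k := by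
  rcases hA with ⟨R, hR⟩ | ⟨c, h1, h2, h3⟩ | ⟨c, m0, h1, h2⟩
  · refine cplC_of_infinite (R := R) ?_
    have hinj : Set.InjOn (fun a : ℂ => I * a) (A ∩ Metric.closedBall 0 R) :=
      fun x _ y _ h => mul_left_cancel₀ Complex.I_ne_zero h
    refine (hR.image hinj).mono ?_
    rintro _ ⟨a, ⟨ha1, ha2⟩, rfl⟩
    refine ⟨rot_mem.2 ha1, ?_⟩
    rw [mem_closedBall_zero_iff] at ha2 ⊢
    simpa using ha2
  · refine cplC_of_lattice h1 h2 fun m => ?_
    rw [mul_comm]
    exact rot_mem.2 (h3 m)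
  · refine cplC_of_progression h1 (m0 := m0) fun m hm => ?_
    exact h2 m hm

lemma rot_re {A : Set ℂ} (hA : ∀ α ∈ A, α.im ≤ 0) : ∀ s ∈ rot A, 0 ≤ s.re := by
  intro s hs
  have := hA _ hs
  simpa using this

lemma re_of {α : ℂ} (h : α.im ≤ 0) : 0 ≤ (I * α).re := by simpa using h

lemma sum_rot {A : Set ℂ} {S : Finset ℂ} {c : ℂ → ℂ} (hS : ∀ a ∈ S, a ∈ rot A) :
    (∀ a ∈ S.image (fun s => -(I * s)), a ∈ A) ∧ ∀ f : ℂ → ℂ,
      ∑ a ∈ S.image (fun s => -(I * s)), c (I * a) * f (I * a) = ∑ a ∈ S, c a * f a := by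
  constructor
  · intro a ha
    obtain ⟨s, hs, rfl⟩ := Finset.mem_image.1 ha
    exact hS s hs
  · intro f
    rw [Finset.sum_image (fun x _ y _ h => mul_left_cancel₀ Complex.I_ne_zero (neg_injective h))]
    simp only [mul_neg_I]

/-- Let `A` be an admissible set of shifts `α` with `Im α ≤ 0`.
(1) For every `α` with `Im α ≤ 0` and every `ε > 0` there is a finite linear combination of shifts in `A`
which approximates both `W_k(α,N)`, for all `N`, and `Q_k(α,T)`, for all `T` outside sets of measure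
`≤ C log² X` in `[X,2X]`, up to `ε` times the unshifted moment.
(2) If `Q_k(a,T)` converges for every `a ∈ A`, then `Q_k(α,T)` converges for every `α` with `Im α ≤ 0`, in
particular for every real `α`.
(3) If moreover the limits are the conjectured ones for all `a ∈ A`, then they are for all `α` with
`Im α ≤ 0`, in particular for all real `α`. -/
theorem result (k : ℕ) (A : Set ℂ) (hA0 : ∀ α ∈ A, α.im ≤ 0) (hA : Admissible k A) :
    (∀ α : ℂ, α.im ≤ 0 → ∀ ε : ℝ, 0 < ε → ∃ (s : Finset ℂ) (c : ℂ → ℂ), (∀ a ∈ s, a ∈ A) ∧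
      (∀ N : ℕ, 1 ≤ N → ‖W k α N - ∑ a ∈ s, c a * W k a N‖ ≤ ε * ‖W k 0 N‖) ∧
      ∃ C X₀ : ℝ, ∀ X : ℝ, X₀ ≤ X → ∃ E : Set ℝ, MeasurableSet E ∧ E ⊆ Icc X (2 * X) ∧
        volume E ≤ ENNReal.ofReal (C * Real.log X ^ 2) ∧
        ∀ T ∈ Icc X (2 * X), T ∉ E →
          ‖Q k α T - ∑ a ∈ s, c a * Q k a T‖ ≤ ε * ((Q k 0 T).re + 1)) ∧
    ((∀ a ∈ A, ∃ l, Tendsto (fun T : ℝ => Q k a T) atTop (𝓝 l)) →
      ∀ α : ℂ, α.im ≤ 0 → ∃ l, Tendsto (fun T : ℝ => Q k α T) atTop (𝓝 l)) ∧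
    ∀ 𝒲 : ℂ → ℂ, (∀ a ∈ A, Tendsto (fun N : ℕ => W k a N) atTop (𝓝 (𝒲 a))) →
      (∀ a ∈ A, Tendsto (fun T : ℝ => Q k a T) atTop (𝓝 (ak k * 𝒲 a))) →
      ∀ α : ℂ, α.im ≤ 0 → ∃ w, Tendsto (fun N : ℕ => W k α N) atTop (𝓝 w) ∧
        Tendsto (fun T : ℝ => Q k α T) atTop (𝓝 (ak k * w)) := by
  have hC := rot_cpl hA
  have hre := rot_re hA0
  refine ⟨fun α hα ε hε => ?_, fun hlim α hα => ?_, fun 𝒲 hW hlim α hα => ?_⟩
  · obtain ⟨S, c, h1, h2, C, X0, h3⟩ := commonC k hC hre (re_of hα) hε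
    obtain ⟨g1, g2⟩ := sum_rot (c := c) h1
    refine ⟨S.image (fun s => -(I * s)), fun a => c (I * a), g1, fun N hN => ?_, C, X0, fun X hX => ?_⟩
    · have h := h2 N hN
      rw [← g2 (fun s => Wc k s N)] at h
      have e0 : W k 0 N = Wc k 0 N := by rw [W_eq, mul_zero]
      rw [e0]
      exact h
    · obtain ⟨E, e1, e2, e3, e4⟩ := h3 X hX
      refine ⟨E, e1, e2, e3, fun T hT hTE => ?_⟩
      have h := e4 T hT hTE
      rw [← g2 (fun s => CT k T s / ((NN (k ^ 2) T : ℝ) : ℂ))] at h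
      rw [Q_zero]
      simp only [Q_eq]
      exact h
  · choose! l hl using hlim
    obtain ⟨b, -, hb⟩ := convC k (k ^ 2) hC hre (G := fun s => l (-(I * s))) (fun s hs => by
      have := hl _ hs
      simp only [Q_eq, mul_neg_I] at this
      exact this)
    obtain ⟨m, hm, -⟩ := hb (I * α) (re_of hα)
    exact ⟨m, by simpa only [Q_eq] using hm⟩
  · obtain ⟨w, h1, h2⟩ := matchC k hC hre (ak k : ℂ) (W := fun s => 𝒲 (-(I * s))) (fun s hs => by
      have := hW _ hs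
      simp only [W_eq, mul_neg_I] at this
      exact this) (fun s hs => by
      have := hlim _ hs
      simp only [Q_eq, mul_neg_I] at this
      exact this) (I * α) (re_of hα)
    exact ⟨w, h1, by simpa only [Q_eq] using h2⟩

end Pool.Agent.Results.MP_069854_nt.OffLineRigidity
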