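import Pool.Agent.J4.H44.LP.Rm

set_option autoImplicit false

/-!
# Shifted moments of zeta, long Dirichlet polynomials and truncated characteristic polynomials
-/

namespace Pool.Agent.Results.MP_069854_nt.TruncatedPolynomials

open Complex MeasureTheory Filter Topology Set Pool.Agent.TH535.SM Pool.Agent.R446.KR Pool.Agent.J4.H44.LP
open scoped ComplexConjugate Matrix ContDiff

/-- The normalised shifted moment `Q_k(α,T)` of the problem. -/
noncomputable def Q (k : ℕ) (α : ℝ) (T : ℝ) : ℂ :=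
  (T : ℂ)⁻¹ * ((Real.log T : ℂ) ^ (k ^ 2))⁻¹ *
    ∫ t in (0:ℝ)..T, riemannZeta (1 / 2 + I * α / Real.log T + I * t) ^ k *
      riemannZeta (1 / 2 + I * α / Real.log T - I * t) ^ k

/-- The normalised Haar measure `dU` of `U(N)`. -/
noncomputable def haar (N : ℕ) : Measure (Matrix.unitaryGroup (Fin N) ℂ) := Measure.haarMeasure ⊤

/-- The matrix integral `W_k(α,N)` of the problem. -/
noncomputable def W (k : ℕ) (α : ℝ) (N : ℕ) : ℂ :=
  ((N : ℂ) ^ (k ^ 2))⁻¹ * ∫ U : Matrix.unitaryGroup (Fin N) ℂ,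
    (1 - cexp (-(I * α / N)) • (U : Matrix (Fin N) (Fin N) ℂ)).det ^ k *
      (1 - cexp (-(I * α / N)) • (U : Matrix (Fin N) (Fin N) ℂ)ᴴ).det ^ k ∂(haar N)

/-- The number `d_k(n)` of ordered factorisations of `n` into `k` positive factors. -/
def dk (k n : ℕ) : ℕ := (Nat.finMulAntidiag k n).card

/-- The arithmetic constant `a_k`. -/
noncomputable def ak (k : ℕ) : ℝ := ∏' p : Nat.Primes, (1 - 1 / (p : ℝ)) ^ (k ^ 2) *
  ∑' m : ℕ, (dk k ((p : ℕ) ^ m) : ℝ) ^ 2 / (p : ℝ) ^ m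

/-- The smoothed Dirichlet polynomial `∑_n d_k(n) φ(log n / log T) n^{-1/2-it}`. -/
noncomputable def D (k : ℕ) (φ : ℝ → ℂ) (T t : ℝ) : ℂ :=
  ∑' n : ℕ, (dk k n : ℂ) * φ (Real.log n / Real.log T) * (n : ℂ) ^ (-(1 / 2 + I * t))

/-- Its normalised mean square `T⁻¹ (log T)^{-k²} ∫ |D|² dt` over `T^ϑ ≤ t ≤ T`. -/
noncomputable def S (k : ℕ) (φ : ℝ → ℂ) (ϑ T : ℝ) : ℝ :=
  (∫ t in (T ^ ϑ)..T, ‖D k φ T t‖ ^ 2) / (T * Real.log T ^ (k ^ 2))

/-- The polynomial `det(1 - X U)^k` in the variable `X`. -/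
noncomputable def P (k : ℕ) {N : ℕ} (U : Matrix (Fin N) (Fin N) ℂ) : Polynomial ℂ :=
  ((1 : Matrix (Fin N) (Fin N) (Polynomial ℂ)) - (Polynomial.X : Polynomial ℂ) • U.map Polynomial.C).det ^ k

/-- The average `N^{-k²} ∫_{U(N)} ∑_m |φ(m/N) c_m(U)|² dU`, where `det(1 - X U)^k = ∑_m c_m(U) X^m`
(`0 ≤ m ≤ kN`): the mean square of the smoothed polynomial `∑_m φ(m/N) c_m(U) X^m`. -/
noncomputable def V (k : ℕ) (φ : ℝ → ℂ) (N : ℕ) : ℝ :=
  ((N : ℝ) ^ (k ^ 2))⁻¹ * ∫ U : Matrix.unitaryGroup (Fin N) ℂ,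
    ∑ m ∈ Finset.range (k * N + 1), ‖φ (m / N)‖ ^ 2 *
      ‖(P k (U : Matrix (Fin N) (Fin N) ℂ)).coeff m‖ ^ 2 ∂(haar N)

/-- The Fourier transform `(1/2π) ∫ |φ(v)|² e^{ivy} dv`. -/
noncomputable def Φ (φ : ℝ → ℂ) (y : ℝ) : ℂ :=
  (1 / (2 * Real.pi) : ℝ) * ∫ v : ℝ, ((‖φ v‖ ^ 2 : ℝ) : ℂ) * cexp (v * (y * I))

lemma W_eq (k : ℕ) (α : ℝ) (N : ℕ) : W k α N = Wk k α N := rfl

lemma P_eq (k : ℕ) {N : ℕ} (U : Matrix (Fin N) (Fin N) ℂ) : P k U = pp k U := by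
  unfold P pp
  congr 2
  ext1 i j
  simp only [Matrix.sub_apply, Matrix.add_apply, Matrix.smul_apply, Matrix.map_apply, Matrix.neg_apply,
    map_neg, smul_eq_mul, Matrix.one_apply]
  split_ifs <;> (simp; try ring)

lemma V_eq (k : ℕ) (φ : ℝ → ℂ) (N : ℕ) : V k φ N = Vk k φ N := by
  unfold V Vk
  simp only [P_eq]
  rfl

lemma S_eq (k : ℕ) (φ : ℝ → ℂ) (ϑ T : ℝ) : S k φ ϑ T = PD k φ ϑ T / NN (k ^ 2) T := rfl

lemma Φ_eq (φ : ℝ → ℂ) (y : ℝ) : Φ φ y = KL (sqm φ) 1 y := by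
  unfold Φ KL Pool.Agent.W182.KO.P sqm
  congr 1
  refine integral_congr_ae (Eventually.of_forall fun v => ?_)
  simp

lemma Q_eq (k : ℕ) (α : ℝ) (T : ℝ) : Q k α T = Cor (zk k) (α / Real.log T) T / ((NN (k ^ 2) T : ℝ) : ℂ) := by
  unfold Q Cor NN
  have e : ∫ t in (0:ℝ)..T, riemannZeta (1 / 2 + I * α / Real.log T + I * t) ^ k *
      riemannZeta (1 / 2 + I * α / Real.log T - I * t) ^ k =
      ∫ t in (0:ℝ)..T, zk k (t + α / Real.log T) * conj (zk k (t + -(α / Real.log T))) := by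
    refine intervalIntegral.integral_congr fun t _ => ?_
    have e1 : (1 / 2 + I * α / Real.log T + I * t : ℂ) = 1 / 2 + ((t + α / Real.log T : ℝ) : ℂ) * I := by
      push_cast; ring
    have e2 : (1 / 2 + I * α / Real.log T - I * t : ℂ) =
        conj (1 / 2 + ((t + -(α / Real.log T) : ℝ) : ℂ) * I) := by
      rw [map_add, map_mul, conj_I, Complex.conj_ofReal, map_div₀, map_one, map_ofNat]
      push_cast
      ring
    unfold zk ze
    rw [e1, e2, riemannZeta_conj, ← map_pow]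
  rw [e, Complex.ofReal_mul, Complex.ofReal_pow, ← mul_inv]
  exact (div_eq_inv_mul _ _).symm

lemma re_lim {f : ℝ → ℝ} {x : ℂ} (h : Tendsto (fun T => ((f T : ℝ) : ℂ)) atTop (𝓝 x)) :
    Tendsto f atTop (𝓝 x.re) := by
  have := (Complex.continuous_re.tendsto _).comp h
  exact this

/-- the dominated convergence on the matrix side -/
lemma V_lim (k : ℕ) {φ : ℝ → ℂ} {ξ : ℝ} (hφ : Pool.Agent.W182.KO.TF ξ φ) {w : ℝ → ℂ}
    (hw : ∀ α : ℝ, Tendsto (fun N => Wk k α N) atTop (𝓝 (w α))) :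
    Tendsto (fun N => ((Vk k φ N : ℝ) : ℂ)) atTop (𝓝 (∫ y, KL (sqm φ) 1 y * w (y / 2))) := by
  have hs := sqm_TF hφ
  have hK := KL_int hs one_pos
  have hb := (hw 0).norm.eventually_le_const (show ‖w 0‖ < ‖w 0‖ + 1 by linarith)
  have hlim : Tendsto (fun N : ℕ => ∫ y, KL (sqm φ) 1 y * Wk k (y / 2) N) atTop
      (𝓝 (∫ y, KL (sqm φ) 1 y * w (y / 2))) := by
    refine tendsto_integral_filter_of_dominated_convergence (fun y => ‖KL (sqm φ) 1 y‖ * (‖w 0‖ + 1)) ?_ ?_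
      (hK.norm.mul_const _) ?_
    · filter_upwards [eventually_ge_atTop 1] with N hN
      have h2 := KL_cont hs 1
      have h3 : Continuous (fun y : ℝ => Wk k (y / 2) N) := by
        have e : (fun y : ℝ => Wk k (y / 2) N) = fun y : ℝ => ∑ m ∈ Finset.range (k * N + 1),
            (Pool.Agent.J4.H44.LP.mu k N m : ℂ) * cexp (-(2 * (y / 2) * (m / N : ℝ) : ℝ) * I) := by
          funext y
          rw [Wk_eq k _ hN]
        rw [e]
        fun_prop
      exact (h2.mul h3).aestronglyMeasurable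
    · filter_upwards [hb, eventually_ge_atTop 1] with N h1 h2
      refine Eventually.of_forall fun y => ?_
      rw [norm_mul]
      exact mul_le_mul_of_nonneg_left ((Wk_le k _ h2).trans h1) (norm_nonneg _)
    · exact Eventually.of_forall fun y => (hw (y / 2)).const_mul _
  refine hlim.congr' ?_
  filter_upwards [eventually_ge_atTop 1] with N hN
  rw [Vk_int k hφ hN]

/-- For every `k` and `0 < ϑ < 1`:
(1) `Q_k(α,T)` converges for all real `α` if and only if the normalised mean squares `S` of all smoothed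
polynomials converge; and then their limits are as stated.
(2) The conjecture for `k` holds for all real `α` if and only if, for all smooth compactly supported `φ`, the
averages `V` of truncated characteristic polynomials converge to some `v` and the mean squares `S` to `a_k v`. -/
theorem result (k : ℕ) (ϑ : ℝ) (h0 : 0 < ϑ) (h1 : ϑ < 1) :
    ((∀ α : ℝ, ∃ L : ℂ, Tendsto (Q k α) atTop (𝓝 L)) ↔
      ∀ φ : ℝ → ℂ, ContDiff ℝ ∞ φ → HasCompactSupport φ → ∃ L : ℝ, Tendsto (S k φ ϑ) atTop (𝓝 L)) ∧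
    (∀ G : ℝ → ℂ, (∀ α : ℝ, Tendsto (Q k α) atTop (𝓝 (G α))) →
      ∀ φ : ℝ → ℂ, ContDiff ℝ ∞ φ → HasCompactSupport φ →
        Tendsto (fun T => (S k φ ϑ T : ℂ)) atTop (𝓝 (∫ y : ℝ, Φ φ y * G (y / 2)))) ∧
    ((∀ α : ℝ, ∃ w : ℂ, Tendsto (W k α) atTop (𝓝 w) ∧ Tendsto (Q k α) atTop (𝓝 (ak k * w))) ↔
      ∀ φ : ℝ → ℂ, ContDiff ℝ ∞ φ → HasCompactSupport φ →
        ∃ v : ℝ, Tendsto (V k φ) atTop (𝓝 v) ∧ Tendsto (S k φ ϑ) atTop (𝓝 (ak k * v))) := by
  have hQ : ∀ α, Q k α = fun T => Cor (zk k) (α / Real.log T) T / ((NN (k ^ 2) T : ℝ) : ℂ) :=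
    fun α => funext (Q_eq k α)
  have hV : ∀ φ, V k φ = Vk k φ := fun φ => funext (V_eq k φ)
  have hS : ∀ φ, S k φ ϑ = fun T => PD k φ ϑ T / NN (k ^ 2) T := fun φ => rfl
  have main : ∀ G : ℝ → ℂ, (∀ α : ℝ, Tendsto (Q k α) atTop (𝓝 (G α))) →
      ∀ φ : ℝ → ℂ, ContDiff ℝ ∞ φ → HasCompactSupport φ →
        Tendsto (fun T => (S k φ ϑ T : ℂ)) atTop (𝓝 (∫ y : ℝ, Φ φ y * G (y / 2))) := by
    intro G hG φ hc hs
    obtain ⟨ξ, hξ, hφ⟩ := mk_TF hc hs
    simp only [Φ_eq]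
    exact shifts_PD k hφ hξ (fun α => (hQ α) ▸ hG α) h0 h1
  have hcc : ContDiff ℝ ∞ (fun v => (cut k v : ℂ)) := (ofRealCLM.contDiff (n := ∞)).comp (cut_smooth k)
  refine ⟨⟨fun h φ hc hs => ?_, fun h α => ?_⟩, main, ⟨fun h φ hc hs => ?_, fun h α => ?_⟩⟩
  · choose G hG using h
    exact ⟨_, re_lim (main G hG φ hc hs)⟩
  · have h' : ∀ φ : ℝ → ℂ, ∃ L : ℝ, ContDiff ℝ ∞ φ → HasCompactSupport φ → Tendsto (S k φ ϑ) atTop (𝓝 L) := by
      intro φ
      by_cases hc : ContDiff ℝ ∞ φ ∧ HasCompactSupport φ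
      · obtain ⟨L, hL⟩ := h φ hc.1 hc.2
        exact ⟨L, fun _ _ => hL⟩
      · exact ⟨0, fun a b => absurd ⟨a, b⟩ hc⟩
    choose Pf hP using h'
    exact ⟨_, (hQ α) ▸ PD_shifts k h0 h1 hP α⟩
  · choose w hw hq using h
    obtain ⟨ξ, hξ, hφ⟩ := mk_TF hc hs
    have l1 := V_lim k hφ hw
    have l2 := main (fun α => ak k * w α) hq φ hc hs
    have e : ∫ y : ℝ, Φ φ y * (ak k * w (y / 2)) = ak k * ∫ y, KL (sqm φ) 1 y * w (y / 2) := by
      rw [← integral_const_mul]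
      refine integral_congr_ae (Eventually.of_forall fun y => ?_)
      simp only
      rw [Φ_eq]; ring
    rw [e] at l2
    refine ⟨(∫ y, KL (sqm φ) 1 y * w (y / 2)).re, ?_, ?_⟩
    · rw [hV]
      have := (Complex.continuous_re.tendsto _).comp l1
      exact this
    · have := re_lim l2
      rwa [Complex.re_ofReal_mul] at this
  · have h' : ∀ φ : ℝ → ℂ, ∃ v : ℝ, ContDiff ℝ ∞ φ → HasCompactSupport φ →
        Tendsto (V k φ) atTop (𝓝 v) ∧ Tendsto (S k φ ϑ) atTop (𝓝 (ak k * v)) := by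
      intro φ
      by_cases hc : ContDiff ℝ ∞ φ ∧ HasCompactSupport φ
      · obtain ⟨L, hL⟩ := h φ hc.1 hc.2
        exact ⟨L, fun _ _ => hL⟩
      · exact ⟨0, fun a b => absurd ⟨a, b⟩ hc⟩
    choose v hv using h'
    have hP := PD_shifts k h0 h1 (Pf := fun φ => ak k * v φ) (fun φ a b => (hv φ a b).2) α
    have v1 := (hv _ (tst_smooth k α 0) (tst_cs k α 0)).1
    have v2 := (hv _ (tst_smooth k α (-(Real.pi / 2))) (tst_cs k α (-(Real.pi / 2)))).1
    have v3 := (hv _ hcc (cut_cs k)).1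
    rw [hV] at v1 v2 v3
    refine ⟨(((v (tst k α 0) - 2 * v (fun v => (cut k v : ℂ))) / 2 : ℝ) : ℂ) +
        (((v (tst k α (-(Real.pi / 2))) - 2 * v (fun v => (cut k v : ℂ))) / 2 : ℝ) : ℂ) * I, ?_, ?_⟩
    · have l1 := (Complex.continuous_ofReal.tendsto _).comp ((v1.sub (v3.const_mul 2)).div_const 2)
      have l2 := (Complex.continuous_ofReal.tendsto _).comp ((v2.sub (v3.const_mul 2)).div_const 2)
      refine (l1.add (l2.mul_const I)).congr' ?_
      filter_upwards [eventually_ge_atTop 1] with N hN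
      simp only [Function.comp]
      rw [W_eq, Wk_V k α hN]
    · rw [hQ]
      convert hP using 2
      push_cast
      ring

end Pool.Agent.Results.MP_069854_nt.TruncatedPolynomials
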